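import Pool.Agent.Lib.MP_d9d12d_lc.Dim

/-!
# Borel images and Hausdorff dimension in Cantor space, under the continuum hypothesis

Under the continuum hypothesis, for every `s ∈ [0,1]` there is a set `E` in Cantor space of
Hausdorff dimension `s` all of whose Borel images have dimension at most `s`.
-/

namespace Pool.Agent.Results.MP_d9d12d_lc.BorelImages

open Set Filter Topology
open scoped ENNReal NNReal
open Pool.Agent.Lib.MP_d9d12d_lc

/-- The Hausdorff dimension of a subset of Cantor space, for the metric `d(x,y) = 2^{-n}`, where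
`n` is the least index with `x n ≠ y n` (this is the metric of `PiNat.metricSpace`). -/
noncomputable def cantorDim (E : Set (ℕ → Bool)) : ℝ≥0∞ :=
  letI : MetricSpace (ℕ → Bool) := PiNat.metricSpace
  dimH E

/-- A Luzin type construction along a well-order with countable initial segments. -/
theorem exists_luzin {ι X : Type} (b : ι → Set X) (hι : Cardinal.mk ι ≤ Cardinal.aleph 1)
    (hne : ∀ C : Set ι, C.Countable → ∃ z, ∀ i ∈ C, z ∉ b i) :
    ∃ E : Set X, ∀ i, (E ∩ b i).Countable ∧ ¬ E ⊆ b i := by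
  obtain ⟨_, _, hord⟩ := Cardinal.exists_ord_eq_type_lt ι
  have hcount : ∀ i : ι, (Iio i).Countable := by
    intro i
    have h1 : Cardinal.mk (Iio i) < Cardinal.aleph 1 := (Cardinal.mk_Iio_lt i hord).trans_le hι
    exact Cardinal.countable_iff_lt_aleph_one _ |>.2 h1
  have hex : ∀ i : ι, ∃ z : X, ∀ j, j ≤ i → z ∉ b j := by
    intro i
    have hc : (Iic i).Countable := by
      rw [← Iio_insert]
      exact (hcount i).insert _
    exact hne _ hc
  choose x hx using hex
  refine ⟨range x, fun i => ⟨?_, ?_⟩⟩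
  · apply ((hcount i).image x).mono
    rintro _ ⟨⟨j, rfl⟩, h⟩
    rcases lt_or_ge j i with h' | h'
    · exact ⟨j, h', rfl⟩
    · exact absurd h (hx j i h')
  · intro h
    exact hx i i le_rfl (h ⟨i, rfl⟩)

theorem main (hCH : Cardinal.continuum.{0} = Cardinal.aleph 1) (s : ℝ≥0) (hs0 : 0 < s)
    (hs1 : s < 1) : ∃ E : Set (ℕ → Bool), cantorDim E = s ∧
      ∀ f : (ℕ → Bool) → (ℕ → Bool), @Measurable _ _ (borel _) (borel _) f →
        cantorDim (f '' E) ≤ s := by
  classical
  let _i : MetricSpace (ℕ → Bool) := PiNat.metricSpace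
  have hq1 : (1 / 2 : ℝ) < (1 / 2 : ℝ) ^ (s : ℝ) := by
    conv_lhs => rw [← Real.rpow_one (1 / 2 : ℝ)]
    exact Real.rpow_lt_rpow_of_exponent_gt (by norm_num) (by norm_num) (by exact_mod_cast hs1)
  have hq2 : (1 / 2 : ℝ) ^ (s : ℝ) < 1 :=
    Real.rpow_lt_one (by norm_num) (by norm_num) (by exact_mod_cast hs0)
  let q : Set.Ioo (1 / 2 : ℝ) 1 := ⟨(1 / 2 : ℝ) ^ (s : ℝ), hq1, hq2⟩
  let ι : Type := {B : Set (ℕ → Bool) // @MeasurableSet _ (borel (ℕ → Bool)) B ∧
    Bᶜ ∈ @residual _ (galeTop q)}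
  have hι : Cardinal.mk ι ≤ Cardinal.aleph 1 := by
    rw [← hCH]
    have h1 : Cardinal.mk ι ≤ Cardinal.mk {B : Set (ℕ → Bool) |
        @MeasurableSet _ (borel (ℕ → Bool)) B} :=
      Cardinal.mk_le_of_injective (f := fun B => ⟨B.1, B.2.1⟩) (by
        intro a b hab
        apply Subtype.ext
        simpa using hab)
    refine h1.trans ?_
    rw [(TopologicalSpace.isBasis_countableBasis (ℕ → Bool)).borel_eq_generateFrom]
    apply MeasurableSpace.cardinal_measurableSet_le_continuum
    refine le_trans ?_ Cardinal.aleph0_le_continuum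
    exact (TopologicalSpace.countable_countableBasis (ℕ → Bool)).le_aleph0
  obtain ⟨E, hE⟩ := exists_luzin (fun B : ι => B.1) hι (by
    intro C hC
    have h1 : (⋂ j ∈ C, (j.1)ᶜ) ∈ @residual _ (galeTop q) :=
      (countable_bInter_mem hC).2 fun j _ => j.2.2
    obtain ⟨z, -, hz⟩ := gdense_of_residual q h1 [] (fun _ => 0) (goodAt_zero _) (by simp)
    exact ⟨z, fun j hj => mem_iInter₂.1 hz j hj⟩)
  have hf : ∀ f : (ℕ → Bool) → (ℕ → Bool), @Measurable _ _ (borel _) (borel _) f →
      cantorDim (f '' E) ≤ s := by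
    intro f hf
    obtain ⟨T, hT1, hT2, hT3⟩ := exists_small_image q hf
    have hdim := dimH_limsup_le (s := s) T hT1 (fun n σ => hT2 n σ)
    set M := {y : ℕ → Bool | ∀ n, ∃ σ, ∃ ρ ∈ T n σ, y ∈ cyl ρ} with hM
    have hMm : @MeasurableSet _ (borel (ℕ → Bool)) M := by
      let _m : MeasurableSpace (ℕ → Bool) := borel (ℕ → Bool)
      have _b : BorelSpace (ℕ → Bool) := ⟨rfl⟩
      have e : M = ⋂ n, ⋃ σ, ⋃ ρ ∈ T n σ, cyl ρ := by
        ext y
        simp [hM]
      rw [e]
      refine MeasurableSet.iInter fun n => MeasurableSet.iUnion fun σ => ?_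
      exact Finset.measurableSet_biUnion _ fun ρ _ => (isOpen_cyl ρ).measurableSet
    let i₀ : ι := ⟨(f ⁻¹' M)ᶜ, by
      exact (hf hMm).compl, by
      rw [compl_compl]; exact hT3⟩
    have hsub : f '' E ⊆ f '' (E ∩ i₀.1) ∪ M := by
      rintro _ ⟨x, hx, rfl⟩
      by_cases h : f x ∈ M
      · right; exact h
      · left; exact ⟨x, ⟨hx, h⟩, rfl⟩
    have h0 : dimH (f '' (E ∩ i₀.1)) = 0 := dimH_countable ((hE i₀).1.image f)
    calc cantorDim (f '' E) ≤ dimH (f '' (E ∩ i₀.1) ∪ M) := dimH_mono hsub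
      _ = max (dimH (f '' (E ∩ i₀.1))) (dimH M) := dimH_union _ _
      _ ≤ s := by rw [h0]; exact max_le zero_le hdim
  refine ⟨E, le_antisymm ?_ ?_, hf⟩
  · have h1 := hf id (by exact @measurable_id _ (borel _))
    rwa [image_id] at h1
  · by_contra hlt
    rw [not_le] at hlt
    obtain ⟨N', h1, h2, h3⟩ := exists_meagre_hull q (N := E) (fun ε hε =>
      exists_cheap_cover hs0 hlt ε hε)
    exact (hE ⟨N', h2, h3⟩).2 h1

/-- Under the continuum hypothesis, for every `s ∈ [0,1]` some `E ⊆ 2^ω` has Hausdorff dimension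
`s`, and every Borel image of `E` has Hausdorff dimension at most `s`. -/
theorem result (hCH : Cardinal.continuum.{0} = Cardinal.aleph 1) (s : ℝ≥0∞) (hs : s ≤ 1) :
    ∃ E : Set (ℕ → Bool), cantorDim E = s ∧
      ∀ f : (ℕ → Bool) → (ℕ → Bool), @Measurable _ _ (borel _) (borel _) f →
        cantorDim (f '' E) ≤ s := by
  let _i : MetricSpace (ℕ → Bool) := PiNat.metricSpace
  rcases hs.lt_or_eq with hs1 | rfl
  · have hfin : s ≠ ∞ := ne_top_of_lt (hs1.trans ENNReal.one_lt_top)
    lift s to ℝ≥0 using hfin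
    rcases eq_or_ne s 0 with rfl | hs0
    · refine ⟨{fun _ => false}, ?_, ?_⟩
      · show dimH _ = _
        rw [dimH_singleton]
        rfl
      · intro f _
        rw [image_singleton]
        show dimH _ ≤ _
        rw [dimH_singleton]
        exact zero_le
    · exact main hCH s (pos_iff_ne_zero.2 hs0) (by exact_mod_cast hs1)
  · refine ⟨univ, le_antisymm (dimH_le_one _) ?_, fun f _ => dimH_le_one _⟩
    apply le_of_forall_lt
    intro c hc
    obtain ⟨d, hcd, hd1⟩ := ENNReal.lt_iff_exists_nnreal_btwn.1 hc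
    have hd0 : 0 < d := by
      have := lt_of_le_of_lt (zero_le (a := c)) hcd
      exact_mod_cast this
    obtain ⟨E, hE, -⟩ := main hCH d hd0 (by exact_mod_cast hd1)
    calc c < d := hcd
      _ = cantorDim E := hE.symm
      _ ≤ cantorDim univ := dimH_mono (subset_univ _)

end Pool.Agent.Results.MP_d9d12d_lc.BorelImages
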